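import Mathlib
import Pool.Agent.V11175.Sh18
import Pool.Agent.V11307.RV.H3

/-!
# Monotone triangle evaluations as rational multiples of ASM numbers

For `n ≥ k ≥ 4` let `T_k(n) = α(n+1; 1, ..., k-3, k-1, k, k-1, k, k+1, ..., n)`, where `α` is the monotone triangle
polynomial, and let `A_{n-1} = α(n-1; 1, ..., n-1)`.  We prove that `T_k(n) / A_{n-1}` is a rational function of `n`
of degree `k - 3`.

The proof takes place in the shuffle algebra (with kernel `1 - x + x y`) generated by letters `t_a`, `a ∈ ℕ`.

* `T_k(n) = ∑_{i ≤ k-3} ∑_{j ≤ i} α(n-1; 1, ..., j, j+2, ..., n)`: the operation `δ` of putting one variable equal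
  to one and dividing by `∏ (x_j - 1)` maps `t_1 ⋯ t_{k-3} t_{k-1} t_k t_{k-1} t_k ⋯ t_n` to an explicit combination
  of the words `t_1 t_1 ⋯ t_{i-1} t_{i+1} ⋯ t_n`.
* A transposition identity in the algebra expresses `α(n+1; 1 + y, 1, ..., n)` by the numbers
  `α(n; 1, ..., j, j+2, ..., n+1)`.
* `W(y) = α(2n+1; y, 1, ..., n, 1, ..., n)` has `n`-th differences `± α(n+1; y, 1, ..., n)`, it vanishes for
  `y = 1, ..., n` (algebraic relation) and for `y = 2n+2, ..., 3n+1` (rotation).  This determines
  `α(n; 1, ..., j, j+2, ..., n+1)` up to a constant not depending on `j`.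
-/

set_option autoImplicit false

namespace Pool.Agent.Results.MP_039c6c_co.RationalMultiple

open Finset Pool.Agent.V11175.Sh Pool.Agent.V11175.Sh.A Pool.Agent.V11175.MT

/-- the sequence `(1, ..., k - 3, k - 1, k, k - 1, k, k + 1, ...)` (index `j` starts at `0`) -/
def tseq (k j : ℕ) : ℕ := if j < k - 3 then j + 1 else if j < k - 1 then j + 2 else j

lemma list_t (r M : ℕ) : List.ofFn (fun j : Fin (r + M + 4) => tseq (r + 3) j) =
    List.range' 1 r ++ (List.range' (r + 2) 2 ++ List.range' (r + 2) (M + 2)) := by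
  apply List.ext_getElem
  · simp; ring
  · intro j h1 h2
    rw [List.getElem_ofFn]
    simp only [tseq]
    by_cases hj : j < r
    · rw [if_pos (by omega), List.getElem_append_left (by simpa using hj), List.getElem_range']
      omega
    · rw [if_neg (by omega), List.getElem_append_right (by simpa using hj)]
      by_cases hj2 : j < r + 2
      · rw [if_pos (by omega), List.getElem_append_left (by simp; omega), List.getElem_range']
        simp; omega
      · rw [if_neg (by omega), List.getElem_append_right (by simp; omega), List.getElem_range']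
        simp; omega

theorem trans : Trans := fun n y => Pool.Agent.V11307.RV.trans n y

/-- **The values `T_k(n)` are rational multiples of `A_{n-1}`.**  First: the monotone triangle polynomials exist and
are unique.  Second: for every `k ≥ 4` there are polynomials `p, q` with rational coefficients whose degrees differ
by `k - 3` such that `q(n) ≠ 0` and `T_k(n) = p(n) / q(n) * A_{n-1}` for all `n ≥ k`. -/
theorem result :
    (∀ n : ℕ, ∃! P : MvPolynomial (Fin n) ℚ, IsAlpha n P) ∧
    ∀ k : ℕ, 4 ≤ k → ∃ p q : Polynomial ℚ, p ≠ 0 ∧ q ≠ 0 ∧ p.natDegree = q.natDegree + (k - 3) ∧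
      ∀ n : ℕ, k ≤ n → q.eval (n : ℚ) ≠ 0 ∧
        ∀ P : MvPolynomial (Fin (n + 1)) ℚ, IsAlpha (n + 1) P →
          MvPolynomial.eval (fun j : Fin (n + 1) => (tseq k j : ℚ)) P =
            p.eval (n : ℚ) / q.eval (n : ℚ) * numMT (n - 1) (fun j : Fin (n - 1) => ((j : ℕ) : ℤ) + 1) := by
  refine ⟨existsUnique, ?_⟩
  intro k hk
  obtain ⟨r, rfl⟩ : ∃ r, k = r + 3 := ⟨k - 3, by omega⟩
  have hp : (pnum r).natDegree = 2 * r := natDegree_pnum r (by omega)
  refine ⟨pnum r, qq 0 r, ?_, qq_ne 0 r, ?_, ?_⟩
  · intro h
    rw [h, Polynomial.natDegree_zero] at hp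
    omega
  · rw [hp, natDegree_qq]
    omega
  · intro n hn
    obtain ⟨M, rfl⟩ : ∃ M, n = r + M + 3 := ⟨n - (r + 3), by omega⟩
    obtain ⟨h0, h1⟩ := al_Wr_eq trans M r
    refine ⟨h0, ?_⟩
    intro P hP
    rw [eval_eq hP (fun j : Fin (r + M + 3 + 1) => tseq (r + 3) j), alpha_of_list _ _ (list_t r M), wordL_append,
      wordL_append, wordL_range', wordL_range', wordL_range']
    have e : (run 1 r * (run (r + 2) 2 * run (r + 2) (M + 2)) : A R) = Wr M 1 r := by
      rw [Wr, Xr, show 1 + r + 1 = r + 2 by ring]
    rw [e, al_congr (show r + M + 3 + 1 = r + M + 4 by ring), h1]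
    congr 1
    have h := alpha_eq_num (fun j : Fin (r + M + 2) => (j : ℕ) + 1) (by
      intro a b hab
      rw [Fin.lt_def] at hab
      simp only
      omega)
    have hl : List.ofFn (fun j : Fin (r + M + 2) => (j : ℕ) + 1) = List.range' 1 (r + M + 2) := by
      apply List.ext_getElem
      · simp
      · intro j h1 h2
        rw [List.getElem_ofFn, List.getElem_range']
        simp; omega
    rw [alpha_of_list _ _ hl, wordL_range'] at h
    rw [h]
    push_cast
    rfl

end Pool.Agent.Results.MP_039c6c_co.RationalMultiple
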